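import Mathlib

/-!
# Finite `K_n`-free graphs with all extension axioms

Fix `n` and `k`. A *datum* `x` has a colour `x.col`, and for every index `a < k` a required type `x.typ a` and `d`
tests `x.tst a j`. It dominates `y` if the colours differ and, for some `a`, the type `tau2 y` is the required type
`x.typ a` and `y` passes all tests `x.tst a j`. The tests ask for bits of the codes of the tests of `y` or for the
required types of `y`. Two data are joined if one of them dominates the other; the vertices are the *valid* data.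
-/

set_option autoImplicit false

namespace Pool.Agent.PSF

/-- first level types: a colour and `k` colours -/
abbrev T1 (K : Type) (k : ℕ) : Type := K × (Fin k → K)

/-- second level types: a colour and `k` first level types -/
abbrev T2 (K : Type) (k : ℕ) : Type := K × (Fin k → T1 K k)

/-- tests: `(a, j, r, β)` asks whether bit `r` of the code of the `j`-th test of index `a` is `β`;
`(a, t)` asks whether the required type of index `a` is `t` -/
abbrev Tst (K : Type) (k d l : ℕ) : Type := (Fin k × Fin d × Fin l × Bool) ⊕ (Fin k × T2 K k)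

/-- a datum -/
@[ext]
structure Dat (K : Type) (k d l : ℕ) where
  /-- the colour -/
  col : K
  /-- the required types -/
  typ : Fin k → T2 K k
  /-- the tests -/
  tst : Fin k → Fin d → Tst K k d l

variable {K : Type} {k d l : ℕ}

instance [Finite K] : Finite (Dat K k d l) := by
  have : Finite (T1 K k) := inferInstance
  have : Finite (T2 K k) := inferInstance
  have : Finite (Fin k × T2 K k) := inferInstance
  have : Finite (Tst K k d l) := inferInstance
  refine Finite.of_injective
    (fun x : Dat K k d l => (x.col, x.typ, x.tst)) ?_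
  rintro ⟨a, b, c⟩ ⟨a', b', c'⟩ h
  simp only [Prod.mk.injEq] at h
  obtain ⟨h1, h2, h3⟩ := h
  subst h1 h2 h3
  rfl

/-- the first level type of a second level type -/
def tau1 (t : T2 K k) : T1 K k := (t.1, fun b => (t.2 b).1)

/-- the type of a datum -/
def tau2 (x : Dat K k d l) : T2 K k := (x.col, fun b => tau1 (x.typ b))

/-- passing a test -/
def Pass (code : Tst K k d l → Fin l → Bool) (y : Dat K k d l) : Tst K k d l → Prop
  | Sum.inl (a, j, r, β) => code (y.tst a j) r = β
  | Sum.inr (a, t) => y.typ a = t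

/-- domination -/
def Dom (code : Tst K k d l → Fin l → Bool) (x y : Dat K k d l) : Prop :=
  x.col ≠ y.col ∧ ∃ a, x.typ a = tau2 y ∧ ∀ j, Pass code y (x.tst a j)

/-- the graph of all data -/
def Gam (code : Tst K k d l → Fin l → Bool) : SimpleGraph (Dat K k d l) where
  Adj x y := Dom code x y ∨ Dom code y x
  symm := ⟨fun x y h => h.symm⟩
  loopless := ⟨fun x h => by
    rcases h with h | h <;> exact h.1 rfl⟩

/-- valid data -/
def Valid (n : ℕ) (code : Tst K k d l → Fin l → Bool) (x : Dat K k d l) : Prop :=
  (∀ a b c, x.col ≠ ((x.typ a).2 b).2 c) ∧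
    ∀ s : Finset (Dat K k d l), (∀ y ∈ s, Dom code x y) → ¬ (Gam code).IsNClique (n - 1) s

theorem no_cycle {code : Tst K k d l → Fin l → Bool} {x y z : Dat K k d l}
    (hx : ∀ a b c, x.col ≠ ((x.typ a).2 b).2 c) (hxy : Dom code x y) (hyz : Dom code y z)
    (hzx : Dom code z x) : False := by
  obtain ⟨-, a, ha, -⟩ := hxy
  obtain ⟨-, b, hb, -⟩ := hyz
  obtain ⟨-, c, hc, -⟩ := hzx
  apply hx a b c
  rw [ha]
  simp only [tau2, tau1, hb, hc]

/-- the set of valid data is `K_n`-free -/
theorem no_clique {n : ℕ} (hn : 1 ≤ n) {code : Tst K k d l → Fin l → Bool}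
    (s : Finset (Dat K k d l)) (hs : ∀ x ∈ s, Valid n code x) : ¬ (Gam code).IsNClique n s := by
  classical
  intro hc
  have hne : s.Nonempty := by
    rw [← Finset.card_pos, hc.card_eq]; omega
  obtain ⟨p, hp, hmax⟩ := s.exists_max_image (fun x => (s.filter (fun y => Dom code x y)).card) hne
  have hdom : ∀ q ∈ s, q ≠ p → Dom code p q := by
    intro q hq hqp
    by_contra hnd
    have hadj : (Gam code).Adj q p := hc.isClique hq hp hqp
    have hqp' : Dom code q p := by
      rcases hadj with h | h
      · exact h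
      · exact absurd h hnd
    have hsub : insert p (s.filter (fun y => Dom code p y)) ⊆ s.filter (fun y => Dom code q y) := by
      intro z hz
      rw [Finset.mem_insert] at hz
      rcases hz with rfl | hz
      · exact Finset.mem_filter.2 ⟨hp, hqp'⟩
      · rw [Finset.mem_filter] at hz
        refine Finset.mem_filter.2 ⟨hz.1, ?_⟩
        have hzq : z ≠ q := by
          rintro rfl
          exact hnd hz.2
        have := hc.isClique hz.1 hq hzq
        rcases this with h | h
        · exact (no_cycle (hs p hp).1 hz.2 h hqp').elim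
        · exact h
    have hpn : p ∉ s.filter (fun y => Dom code p y) := by
      intro h
      exact (Finset.mem_filter.1 h).2.1 rfl
    have h1 := Finset.card_le_card hsub
    rw [Finset.card_insert_of_notMem hpn] at h1
    have h2 := hmax q hq
    omega
  refine (hs p hp).2 (s.erase p) ?_ ?_
  · intro y hy
    rw [Finset.mem_erase] at hy
    exact hdom y hy.2 hy.1
  · constructor
    · intro a ha b hb hab
      rw [Finset.mem_coe, Finset.mem_erase] at ha hb
      exact hc.isClique ha.2 hb.2 hab
    · rw [Finset.card_erase_of_mem hp, hc.card_eq]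

/-- enumerate a nonempty finite set by `Fin d` -/
theorem exists_enum {α : Type} (F : Finset α) (hF : F.Nonempty) (d : ℕ) (hd : F.card ≤ d) :
    ∃ f : Fin d → α, ∀ x, x ∈ F ↔ ∃ j, f j = x := by
  classical
  obtain ⟨x0, hx0⟩ := hF
  refine ⟨fun j => if h : (j : ℕ) < F.card then (F.equivFin.symm ⟨j, h⟩ : α) else x0, fun x => ?_⟩
  constructor
  · intro hx
    refine ⟨⟨F.equivFin ⟨x, hx⟩, lt_of_lt_of_le (F.equivFin ⟨x, hx⟩).2 hd⟩, ?_⟩
    simp
  · rintro ⟨j, rfl⟩
    dsimp only
    split_ifs with h
    · exact (F.equivFin.symm ⟨j, h⟩).2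
    · exact hx0

/-- enumerate a finite set with at most `k` elements by `Fin k`, with blanks -/
theorem exists_enum_option {α : Type} (U : Finset α) (k : ℕ) (hk : U.card ≤ k) :
    ∃ g : Fin k → Option α, (∀ a u, g a = some u → u ∈ U) ∧ ∀ u ∈ U, ∃ a, g a = some u := by
  classical
  refine ⟨fun a => if h : (a : ℕ) < U.card then some (U.equivFin.symm ⟨a, h⟩ : α) else none, ?_, ?_⟩
  · intro a u h
    dsimp only at h
    split_ifs at h with h'
    rw [Option.some.injEq] at h
    rw [← h]
    exact (U.equivFin.symm ⟨a, h'⟩).2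
  · intro u hu
    refine ⟨⟨U.equivFin ⟨u, hu⟩, lt_of_lt_of_le (U.equivFin ⟨u, hu⟩).2 hk⟩, ?_⟩
    simp

section ext

variable (code : Tst K k d l → Fin l → Bool)

open Classical in
/-- a test of `u` of index `b` that `z` fails, if there is one -/
noncomputable def jf (hd : 0 < d) (u z : Dat K k d l) (b : Fin k) : Fin d :=
  if h : ∃ j, ¬ Pass code z (u.tst b j) then h.choose else ⟨0, hd⟩

theorem jf_spec (hd : 0 < d) (u z : Dat K k d l) (b : Fin k) (h : ∃ j, ¬ Pass code z (u.tst b j)) :
    ¬ Pass code z (u.tst b (jf code hd u z b)) := by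
  unfold jf
  rw [dif_pos h]
  exact h.choose_spec

/-- a test contradicting the test `e`, which `z` fails -/
def neg (z : Dat K k d l) : Tst K k d l → Tst K k d l
  | Sum.inl (a, j, r, β) => Sum.inl (a, j, r, !β)
  | Sum.inr (a, _) => Sum.inr (a, z.typ a)

theorem neg_pass (z : Dat K k d l) (e : Tst K k d l) (h : ¬ Pass code z e) :
    Pass code z (neg z e) := by
  rcases e with ⟨a, j, r, β⟩ | ⟨a, t⟩
  · simp only [Pass, neg] at h ⊢
    cases β <;> simpa using h
  · simp only [Pass, neg]

theorem neg_conflict (z q : Dat K k d l) (e : Tst K k d l) (h : ¬ Pass code z e)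
    (hq : Pass code q (neg z e)) : ¬ Pass code q e := by
  rcases e with ⟨a, j, r, β⟩ | ⟨a, t⟩
  · simp only [Pass, neg] at hq ⊢
    rw [hq]
    cases β <;> simp
  · simp only [Pass, neg] at h hq ⊢
    rw [hq]
    exact h

open Classical in
/-- a test that `u` passes and `v` fails, if there is one -/
noncomputable def sep (e0 : Tst K k d l) (u v : Dat K k d l) : Tst K k d l :=
  if h : ∃ e, Pass code u e ∧ ¬ Pass code v e then h.choose else e0

theorem sep_spec (e0 : Tst K k d l) (u v : Dat K k d l)
    (h : ∃ e, Pass code u e ∧ ¬ Pass code v e) :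
    Pass code u (sep code e0 u v) ∧ ¬ Pass code v (sep code e0 u v) := by
  unfold sep
  rw [dif_pos h]
  exact h.choose_spec

theorem exists_sep (hcode : Function.Injective code) (u v : Dat K k d l) (huv : u ≠ v)
    (hcol : u.col = v.col) : ∃ e, Pass code u e ∧ ¬ Pass code v e := by
  by_cases ht : u.typ = v.typ
  · have hts : u.tst ≠ v.tst := fun h => huv (Dat.ext hcol ht h)
    obtain ⟨a, ha⟩ := Function.ne_iff.1 hts
    obtain ⟨j, hj⟩ := Function.ne_iff.1 ha
    have hc : code (u.tst a j) ≠ code (v.tst a j) := fun h => hj (hcode h)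
    obtain ⟨r, hr⟩ := Function.ne_iff.1 hc
    exact ⟨Sum.inl (a, j, r, code (u.tst a j) r), rfl, fun h => hr h.symm⟩
  · obtain ⟨a, ha⟩ := Function.ne_iff.1 ht
    exact ⟨Sum.inr (a, u.typ a), rfl, fun h => ha h.symm⟩

open Classical in
/-- the tests for the disjunct of `u` -/
noncomputable def FF (hd : 0 < d) (e0 : Tst K k d l) (U V : Finset (Dat K k d l))
    (u : Dat K k d l) : Finset (Tst K k d l) :=
  (((Finset.univ : Finset (Fin k)).image (fun a => (Sum.inr (a, u.typ a) : Tst K k d l))) ∪
    (((U ×ˢ (Finset.univ : Finset (Fin k))) ×ˢ (Finset.univ : Finset (Fin l))).image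
      (fun p => (Sum.inl (p.1.2, jf code hd u p.1.1 p.1.2, p.2,
        code (u.tst p.1.2 (jf code hd u p.1.1 p.1.2)) p.2) : Tst K k d l))) ∪
    ((U ×ˢ (Finset.univ : Finset (Fin k))).image
      (fun p => neg u (p.1.tst p.2 (jf code hd p.1 u p.2)))) ∪
    (V.image (fun v => sep code e0 u v))).filter (fun e => Pass code u e)

theorem FF_card (hd : 0 < d) (e0 : Tst K k d l) (U V : Finset (Dat K k d l))
    (u : Dat K k d l) (hUV : U.card + V.card ≤ k) :
    (FF code hd e0 U V u).card ≤ k * k * l + k * k + 2 * k := by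
  classical
  unfold FF
  refine (Finset.card_filter_le _ _).trans ?_
  refine (Finset.card_union_le _ _).trans ?_
  refine (Nat.add_le_add (Finset.card_union_le _ _) Finset.card_image_le).trans ?_
  refine (Nat.add_le_add (Nat.add_le_add (Finset.card_union_le _ _) Finset.card_image_le)
    le_rfl).trans ?_
  refine (Nat.add_le_add (Nat.add_le_add (Nat.add_le_add Finset.card_image_le
    Finset.card_image_le) le_rfl) le_rfl).trans ?_
  simp only [Finset.card_product, Finset.card_univ, Fintype.card_fin]
  have hU : U.card ≤ k := by omega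
  have hV : V.card ≤ k := by omega
  have h1 : U.card * k * l ≤ k * k * l :=
    Nat.mul_le_mul_right _ (Nat.mul_le_mul_right _ hU)
  have h2 : U.card * k ≤ k * k := Nat.mul_le_mul_right _ hU
  omega

theorem FF_pass (hd : 0 < d) (e0 : Tst K k d l) (U V : Finset (Dat K k d l))
    (u : Dat K k d l) : ∀ e ∈ FF code hd e0 U V u, Pass code u e := by
  classical
  intro e he
  exact (Finset.mem_filter.1 he).2

theorem FF_typ (hd : 0 < d) (e0 : Tst K k d l) (U V : Finset (Dat K k d l))
    (u : Dat K k d l) (a : Fin k) : (Sum.inr (a, u.typ a) : Tst K k d l) ∈ FF code hd e0 U V u := by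
  classical
  refine Finset.mem_filter.2 ⟨?_, rfl⟩
  refine Finset.mem_union_left _ (Finset.mem_union_left _ (Finset.mem_union_left _ ?_))
  exact Finset.mem_image.2 ⟨a, Finset.mem_univ _, rfl⟩

theorem FF_bit (hd : 0 < d) (e0 : Tst K k d l) (U V : Finset (Dat K k d l))
    (u z : Dat K k d l) (hz : z ∈ U) (b : Fin k) (r : Fin l) :
    (Sum.inl (b, jf code hd u z b, r, code (u.tst b (jf code hd u z b)) r) : Tst K k d l) ∈
      FF code hd e0 U V u := by
  classical
  refine Finset.mem_filter.2 ⟨?_, rfl⟩
  refine Finset.mem_union_left _ (Finset.mem_union_left _ (Finset.mem_union_right _ ?_))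
  exact Finset.mem_image.2 ⟨((z, b), r), by simp [hz], rfl⟩

theorem FF_neg (hd : 0 < d) (e0 : Tst K k d l) (U V : Finset (Dat K k d l))
    (u y : Dat K k d l) (hy : y ∈ U) (b : Fin k)
    (h : ¬ Pass code u (y.tst b (jf code hd y u b))) :
    neg u (y.tst b (jf code hd y u b)) ∈ FF code hd e0 U V u := by
  classical
  refine Finset.mem_filter.2 ⟨?_, neg_pass code u _ h⟩
  refine Finset.mem_union_left _ (Finset.mem_union_right _ ?_)
  exact Finset.mem_image.2 ⟨(y, b), by simp [hy], rfl⟩

theorem FF_sep (hd : 0 < d) (e0 : Tst K k d l) (U V : Finset (Dat K k d l))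
    (u v : Dat K k d l) (hv : v ∈ V) (h : ∃ e, Pass code u e ∧ ¬ Pass code v e) :
    sep code e0 u v ∈ FF code hd e0 U V u := by
  classical
  refine Finset.mem_filter.2 ⟨?_, (sep_spec code e0 u v h).1⟩
  refine Finset.mem_union_right _ ?_
  exact Finset.mem_image.2 ⟨v, hv, rfl⟩

end ext

/-- the extension property -/
theorem extension [Fintype K] {n : ℕ} (hk : 1 ≤ k) (hl : 1 ≤ l) (hK : k * k * k + k * k + k + 1 < Fintype.card K)
    (hd : k * k * l + k * k + 2 * k ≤ d) (code : Tst K k d l → Fin l → Bool)
    (hcode : Function.Injective code) (U V : Finset (Dat K k d l)) (hdis : Disjoint U V)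
    (hUV : U.card + V.card ≤ k)
    (hU : ∀ s ⊆ U, ¬ (Gam code).IsNClique (n - 1) s) :
    ∃ w, Valid n code w ∧ w ∉ U ∧ w ∉ V ∧ (∀ u ∈ U, (Gam code).Adj w u) ∧
      ∀ v ∈ V, ¬ (Gam code).Adj w v := by
  classical
  have hKpos : 0 < Fintype.card K := by omega
  obtain ⟨c0⟩ : Nonempty K := Fintype.card_pos_iff.1 hKpos
  have hd2 : 2 ≤ d := by nlinarith
  have hd0 : 0 < d := by omega
  obtain ⟨g, hg1, hg2⟩ := exists_enum_option U k (by omega)
  set e0 : Tst K k d l := Sum.inl (⟨0, by omega⟩, ⟨0, hd0⟩, ⟨0, by omega⟩, true) with he0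
  set e1 : Tst K k d l := Sum.inl (⟨0, by omega⟩, ⟨0, hd0⟩, ⟨0, by omega⟩, false) with he1
  set t0 : T2 K k := (c0, fun _ => (c0, fun _ => c0)) with ht0
  -- the tests of index `a`
  let FS : Fin k → Finset (Tst K k d l) := fun a =>
    match g a with
    | none => {e0, e1}
    | some u => FF code hd0 e0 U V u
  let TS : Fin k → T2 K k := fun a =>
    match g a with
    | none => t0
    | some u => tau2 u
  have hFS : ∀ a, ∃ f : Fin d → Tst K k d l, ∀ x, x ∈ FS a ↔ ∃ j, f j = x := by
    intro a
    apply exists_enum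
    · cases hga : g a with
      | none => simp only [FS, hga]; exact ⟨e0, by simp⟩
      | some u =>
        simp only [FS, hga]
        exact ⟨_, FF_typ code hd0 e0 U V u ⟨0, by omega⟩⟩
    · cases hga : g a with
      | none =>
        simp only [FS, hga]
        exact Finset.card_le_two.trans hd2
      | some u =>
        simp only [FS, hga]
        exact (FF_card code hd0 e0 U V u hUV).trans hd
  choose ft hft using hFS
  -- the colour
  let bad : Finset K := ((((U.image Dat.col ∪ V.image Dat.col) ∪
    ((U ×ˢ (Finset.univ : Finset (Fin k))) ×ˢ (Finset.univ : Finset (Fin k))).image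
      (fun p => (((tau2 p.1.1).2 p.1.2).2 p.2))) ∪
    (V ×ˢ (Finset.univ : Finset (Fin k))).image (fun p => (p.1.typ p.2).1)) ∪ {c0})
  have hbad : bad.card < Fintype.card K := by
    refine lt_of_le_of_lt ?_ hK
    refine (Finset.card_union_le _ _).trans ?_
    refine (Nat.add_le_add (Finset.card_union_le _ _) le_rfl).trans ?_
    refine (Nat.add_le_add (Nat.add_le_add (Finset.card_union_le _ _) Finset.card_image_le)
      le_rfl).trans ?_
    refine (Nat.add_le_add (Nat.add_le_add (Nat.add_le_add (Finset.card_union_le _ _)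
      Finset.card_image_le) le_rfl) le_rfl).trans ?_
    refine (Nat.add_le_add (Nat.add_le_add (Nat.add_le_add (Nat.add_le_add Finset.card_image_le
      Finset.card_image_le) le_rfl) le_rfl) le_rfl).trans ?_
    simp only [Finset.card_product, Finset.card_univ, Fintype.card_fin, Finset.card_singleton]
    have hU' : U.card ≤ k := by omega
    have hV' : V.card ≤ k := by omega
    have h1 : U.card * k * k ≤ k * k * k := Nat.mul_le_mul_right _ (Nat.mul_le_mul_right _ hU')
    have h2 : V.card * k ≤ k * k := Nat.mul_le_mul_right _ hV'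
    omega
  obtain ⟨cw, hcw⟩ : ∃ c, c ∉ bad := by
    by_contra hcon
    push Not at hcon
    have : bad = Finset.univ := Finset.eq_univ_iff_forall.2 hcon
    rw [this, Finset.card_univ] at hbad
    exact lt_irrefl _ hbad
  have hcw1 : ∀ u ∈ U, cw ≠ u.col := by
    rintro u hu rfl
    exact hcw (Finset.mem_union_left _ (Finset.mem_union_left _ (Finset.mem_union_left _
      (Finset.mem_union_left _ (Finset.mem_image_of_mem _ hu)))))
  have hcw2 : ∀ v ∈ V, cw ≠ v.col := by
    rintro v hv rfl
    exact hcw (Finset.mem_union_left _ (Finset.mem_union_left _ (Finset.mem_union_left _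
      (Finset.mem_union_right _ (Finset.mem_image_of_mem _ hv)))))
  have hcw3 : ∀ u ∈ U, ∀ b c, cw ≠ ((tau2 u).2 b).2 c := by
    rintro u hu b c h
    refine hcw (Finset.mem_union_left _ (Finset.mem_union_left _ (Finset.mem_union_right _ ?_)))
    exact Finset.mem_image.2 ⟨((u, b), c), by simp [hu], h.symm⟩
  have hcw4 : ∀ v ∈ V, ∀ b, cw ≠ (v.typ b).1 := by
    rintro v hv b h
    refine hcw (Finset.mem_union_left _ (Finset.mem_union_right _ ?_))
    exact Finset.mem_image.2 ⟨(v, b), by simp [hv], h.symm⟩
  have hcw5 : cw ≠ c0 := by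
    rintro rfl
    exact hcw (Finset.mem_union_right _ (Finset.mem_singleton_self _))
  let w : Dat K k d l := ⟨cw, TS, ft⟩
  -- passing all tests of index `a`
  have hpass : ∀ q a, (∀ j, Pass code q (ft a j)) → ∀ e ∈ FS a, Pass code q e := by
    intro q a h e he
    obtain ⟨j, rfl⟩ := (hft a e).1 he
    exact h j
  -- the disjunct of a dominated datum
  have hdisj : ∀ q, Dom code w q → ∃ u ∈ U, tau2 u = tau2 q ∧
      ∀ e ∈ FF code hd0 e0 U V u, Pass code q e := by
    rintro q ⟨-, a, ha, hj⟩
    have hp := hpass q a hj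
    cases hga : g a with
    | none =>
      exfalso
      have h0 : Pass code q e0 := hp e0 (by simp only [FS, hga]; simp)
      have h1 : Pass code q e1 := hp e1 (by simp only [FS, hga]; simp)
      simp only [he0, he1, Pass] at h0 h1
      rw [h0] at h1
      exact absurd h1 (by simp)
    | some u =>
      refine ⟨u, hg1 a u hga, ?_, ?_⟩
      · have : TS a = tau2 q := ha
        simp only [TS, hga] at this
        exact this
      · intro e he
        exact hp e (by simp only [FS, hga]; exact he)
  refine ⟨w, ⟨?_, ?_⟩, ?_, ?_, ?_, ?_⟩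
  · -- no directed triangle
    intro a b c
    show cw ≠ ((TS a).2 b).2 c
    cases hga : g a with
    | none => simp only [TS, hga, ht0]; exact hcw5
    | some u => simp only [TS, hga]; exact hcw3 u (hg1 a u hga) b c
  · -- the out-neighbourhood has no clique
    intro s hs hcl
    have hch : ∀ q : s, ∃ u ∈ U, tau2 u = tau2 q.1 ∧
      ∀ e ∈ FF code hd0 e0 U V u, Pass code q.1 e := fun q => hdisj q.1 (hs q.1 q.2)
    choose f hfU hft2 hfF using hch
    -- adjacency is preserved
    have key : ∀ q q' : s, Dom code q.1 q'.1 → (Gam code).Adj (f q) (f q') := by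
      intro q q' hqq
      obtain ⟨hne, b, hb, hj⟩ := hqq
      have h1 : q.1.typ b = (f q).typ b := hfF q _ (FF_typ code hd0 e0 U V (f q) b)
      have h2 : (f q).typ b = tau2 (f q') := by rw [← h1, hb, hft2 q']
      have hc1 : (f q).col = q.1.col := congrArg Prod.fst (hft2 q)
      have hc2 : (f q').col = q'.1.col := congrArg Prod.fst (hft2 q')
      have hcne : (f q).col ≠ (f q').col := by rw [hc1, hc2]; exact hne
      by_contra hnadj
      have hnd : ¬ Dom code (f q) (f q') := fun h => hnadj (Or.inl h)
      have hfail : ∃ j, ¬ Pass code (f q') ((f q).tst b j) := by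
        by_contra hcon
        push Not at hcon
        exact hnd ⟨hcne, b, h2, hcon⟩
      have hfail' := jf_spec code hd0 (f q) (f q') b hfail
      have heq : q.1.tst b (jf code hd0 (f q) (f q') b) =
          (f q).tst b (jf code hd0 (f q) (f q') b) := by
        apply hcode
        funext r
        exact hfF q _ (FF_bit code hd0 e0 U V (f q) (f q') (hfU q') b r)
      have hneg := hfF q' _ (FF_neg code hd0 e0 U V (f q') (f q) (hfU q) b hfail')
      have := neg_conflict code (f q') q'.1 _ hfail' hneg
      apply this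
      rw [← heq]
      exact hj _
    have hadj : ∀ q q' : s, q ≠ q' → (Gam code).Adj (f q) (f q') := by
      intro q q' hqq
      have := hcl.isClique q.2 q'.2 (fun h => hqq (Subtype.ext h))
      rcases this with h | h
      · exact key q q' h
      · exact (key q' q h).symm
    have hinj : Function.Injective f := by
      intro q q' h
      by_contra hne
      have := hadj q q' hne
      rw [h] at this
      exact (Gam code).loopless.irrefl _ this
    refine hU (Finset.univ.image f) ?_ ?_
    · intro u hu
      obtain ⟨q, -, rfl⟩ := Finset.mem_image.1 hu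
      exact hfU q
    · constructor
      · intro x hx y hy hxy
        rw [Finset.mem_coe, Finset.mem_image] at hx hy
        obtain ⟨q, -, rfl⟩ := hx
        obtain ⟨q', -, rfl⟩ := hy
        exact hadj q q' (fun h => hxy (congrArg f h))
      · rw [Finset.card_image_of_injective _ hinj, Finset.card_univ, Fintype.card_coe,
          hcl.card_eq]
  · intro h
    exact hcw1 w h rfl
  · intro h
    exact hcw2 w h rfl
  · intro u hu
    left
    refine ⟨hcw1 u hu, ?_⟩
    obtain ⟨a, ha⟩ := hg2 u hu
    refine ⟨a, ?_, ?_⟩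
    · show TS a = tau2 u
      simp only [TS, ha]
    · intro j
      have : ft a j ∈ FS a := (hft a _).2 ⟨j, rfl⟩
      simp only [FS, ha] at this
      exact FF_pass code hd0 e0 U V u _ this
  · rintro v hv (h | h)
    · obtain ⟨u, hu, htau, hF⟩ := hdisj v h
      have huv : u ≠ v := by
        rintro rfl
        exact Finset.disjoint_left.1 hdis hu hv
      have hcol : u.col = v.col := congrArg Prod.fst htau
      have hsep := exists_sep code hcode u v huv hcol
      exact (sep_spec code e0 u v hsep).2 (hF _ (FF_sep code hd0 e0 U V u v hv hsep))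
    · obtain ⟨-, b, hb, -⟩ := h
      exact hcw4 v hv b (congrArg Prod.fst hb).symm

/-- the exponential beats the quadratic polynomial -/
theorem exists_bits (A B C : ℕ) : ∃ l, 1 ≤ l ∧ A * l * l + B * l + C ≤ 2 ^ l := by
  set D := A + B + C + 21 with hD
  refine ⟨4 * D, by omega, ?_⟩
  have h1 : D + 1 ≤ 2 ^ D := Nat.lt_two_pow_self
  have h2 : (2 : ℕ) ^ (4 * D) = (2 ^ D) ^ 4 := by rw [← pow_mul, mul_comm]
  rw [h2]
  have h3 : (D + 1) ^ 4 ≤ (2 ^ D) ^ 4 := Nat.pow_le_pow_left h1 4
  refine le_trans ?_ h3
  have hA : A ≤ D := by omega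
  have hB : B ≤ D := by omega
  have hC : C ≤ D := by omega
  have hD21 : 21 ≤ D := by omega
  calc A * (4 * D) * (4 * D) + B * (4 * D) + C
      ≤ D * (4 * D) * (4 * D) + D * (4 * D) + D := by gcongr
    _ = 16 * (D * D * D) + 4 * (D * D) + D := by ring
    _ ≤ D * (D * D * D) + 4 * (D * D) + D := by gcongr; omega
    _ ≤ D * (D * D * D) + 4 * (D * D) + D + (4 * (D * D * D) + 2 * (D * D) + 3 * D + 1) := by
        omega
    _ = (D + 1) ^ 4 := by ring

/-- **Main finite theorem.** -/
theorem finite_extension (n k : ℕ) (hn : 1 ≤ n) : ∃ (W : Type) (_ : Finite W) (G : SimpleGraph W),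
    G.CliqueFree n ∧ ∀ U V : Finset W, Disjoint U V → U.card + V.card ≤ k →
      (∀ s ⊆ U, ¬ G.IsNClique (n - 1) s) →
      ∃ w, w ∉ U ∧ w ∉ V ∧ (∀ u ∈ U, G.Adj w u) ∧ ∀ v ∈ V, ¬ G.Adj w v := by
  classical
  -- work with `k + 1`
  obtain ⟨m, hm⟩ : ∃ m, m = k + 1 := ⟨_, rfl⟩
  let K : Type := Fin (m * m * m + m * m + m + 2)
  obtain ⟨l, hl, hbits⟩ := exists_bits (2 * m * m * m) (2 * m * (m * m + 2 * m))
    (m * Fintype.card (T2 K m))
  let d := m * m * l + m * m + 2 * m
  have hcard : Fintype.card (Tst K m d l) ≤ Fintype.card (Fin l → Bool) := by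
    have h1 : Fintype.card (Tst K m d l) = m * (d * (l * 2)) + m * Fintype.card (T2 K m) := by
      simp only [Tst, Fintype.card_sum, Fintype.card_prod, Fintype.card_fin, Fintype.card_bool]
    have h2 : Fintype.card (Fin l → Bool) = 2 ^ l := by simp
    rw [h1, h2]
    refine le_trans (le_of_eq ?_) hbits
    simp only [d]
    ring
  obtain ⟨code⟩ := Function.Embedding.nonempty_of_card_le hcard
  refine ⟨{x : Dat K m d l // Valid n code x}, inferInstance, (Gam code).comap Subtype.val,
    ?_, ?_⟩
  · intro s hs
    refine no_clique hn (s.map ⟨Subtype.val, Subtype.val_injective⟩) ?_ ?_ (code := code)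
    · intro x hx
      obtain ⟨y, -, rfl⟩ := Finset.mem_map.1 hx
      exact y.2
    · constructor
      · intro x hx y hy hxy
        rw [Finset.mem_coe, Finset.mem_map] at hx hy
        obtain ⟨x', hx', rfl⟩ := hx
        obtain ⟨y', hy', rfl⟩ := hy
        exact hs.isClique hx' hy' (fun h => hxy (congrArg Subtype.val h))
      · rw [Finset.card_map, hs.card_eq]
  · intro U V hdis hUV hU
    obtain ⟨w, hw, hwU, hwV, h1, h2⟩ := extension (n := n) (k := m) (d := d) (l := l) (K := K)
      (by omega) hl (by simp [K]) le_rfl code code.injective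
      (U.map ⟨Subtype.val, Subtype.val_injective⟩) (V.map ⟨Subtype.val, Subtype.val_injective⟩)
      (by rw [Finset.disjoint_map]; exact hdis)
      (by rw [Finset.card_map, Finset.card_map]; omega)
      (by
        intro s hs hcl
        obtain ⟨s', hs', rfl⟩ : ∃ s' ⊆ U, s = s'.map ⟨Subtype.val, Subtype.val_injective⟩ := by
          refine ⟨U.filter (fun x => x.1 ∈ s), Finset.filter_subset _ _, ?_⟩
          ext x
          constructor
          · intro hx
            obtain ⟨y, hy, rfl⟩ := Finset.mem_map.1 (hs hx)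
            exact Finset.mem_map.2 ⟨y, Finset.mem_filter.2 ⟨hy, hx⟩, rfl⟩
          · intro hx
            obtain ⟨y, hy, rfl⟩ := Finset.mem_map.1 hx
            exact (Finset.mem_filter.1 hy).2
        refine hU s' hs' ⟨?_, ?_⟩
        · intro x hx y hy hxy
          exact hcl.isClique (Finset.mem_coe.2 (Finset.mem_map_of_mem _ hx))
            (Finset.mem_coe.2 (Finset.mem_map_of_mem _ hy))
            (fun h => hxy (Subtype.ext h))
        · rw [← hcl.card_eq, Finset.card_map])
    refine ⟨⟨w, hw⟩, ?_, ?_, ?_, ?_⟩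
    · intro h
      exact hwU (Finset.mem_map_of_mem _ h)
    · intro h
      exact hwV (Finset.mem_map_of_mem _ h)
    · intro u hu
      exact h1 u.1 (Finset.mem_map_of_mem _ hu)
    · intro v hv
      exact h2 v.1 (Finset.mem_map_of_mem _ hv)

end Pool.Agent.PSF
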