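import Mathlib
import Pool.Agent.PSF.Core

/-!
# First-order logic: graphs with the extension axioms satisfy the same sentences
-/

set_option autoImplicit false

open FirstOrder

namespace Pool.Agent.PSF

/-- `G` satisfies all extension axioms (for graphs omitting `K_n`) with at most `k` parameters: for all disjoint
finite sets `U`, `V` of vertices, together with at most `k` elements, such that `U` contains no `K_{n-1}`, some vertex
outside of `U` and `V` is adjacent to every vertex of `U` and to no vertex of `V`. -/
def Ext (n k : ℕ) {W : Type} (G : SimpleGraph W) : Prop :=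
  ∀ U V : Finset W, Disjoint U V → U.card + V.card ≤ k → (∀ s ⊆ U, ¬ G.IsNClique (n - 1) s) →
    ∃ w, w ∉ U ∧ w ∉ V ∧ (∀ u ∈ U, G.Adj w u) ∧ ∀ v ∈ V, ¬ G.Adj w v

/-- A structure is pseudofinite if every sentence true in it holds in some finite structure. -/
def Pseudofinite (L : Language) (M : Type) [L.Structure M] : Prop :=
  ∀ φ : L.Sentence, M ⊨ φ → ∃ (N : Type) (_ : L.Structure N), Finite N ∧ Nonempty N ∧ N ⊨ φ

/-- `G` is the Henson graph `H_n`: countable, omitting `K_n`, universal for the countable graphs omitting `K_n`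
(each is isomorphic to an induced subgraph of `G`), and homogeneous (every isomorphism between finite induced
subgraphs of `G` extends to an automorphism of `G`). -/
structure IsHenson (n : ℕ) {V : Type} (G : SimpleGraph V) : Prop where
  countable : Countable V
  cliqueFree : G.CliqueFree n
  universal : ∀ (W : Type) (H : SimpleGraph W), Countable W → H.CliqueFree n → Nonempty (H ↪g G)
  homogeneous : ∀ (s : Finset V) (f : V → V), Set.InjOn f s →
    (∀ a ∈ s, ∀ b ∈ s, (G.Adj (f a) (f b) ↔ G.Adj a b)) → ∃ σ : G ≃g G, ∀ a ∈ s, σ a = f a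

/-- quantifier depth -/
def qd {L : Language} {α : Type} : ∀ {m : ℕ}, L.BoundedFormula α m → ℕ
  | _, .falsum => 0
  | _, .equal _ _ => 0
  | _, .rel _ _ => 0
  | _, .imp f g => max (qd f) (qd g)
  | _, .all f => qd f + 1

/-- two tuples with the same quantifier-free type -/
def PIso {V₁ V₂ : Type} (G : SimpleGraph V₁) (H : SimpleGraph V₂) {m : ℕ} (xs : Fin m → V₁)
    (ys : Fin m → V₂) : Prop :=
  (∀ i j, xs i = xs j ↔ ys i = ys j) ∧ ∀ i j, G.Adj (xs i) (xs j) ↔ H.Adj (ys i) (ys j)

theorem PIso.symm {V₁ V₂ : Type} {G : SimpleGraph V₁} {H : SimpleGraph V₂} {m : ℕ}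
    {xs : Fin m → V₁} {ys : Fin m → V₂} (h : PIso G H xs ys) : PIso H G ys xs :=
  ⟨fun i j => (h.1 i j).symm, fun i j => (h.2 i j).symm⟩

theorem PIso.step {V₁ V₂ : Type} {G : SimpleGraph V₁} {H : SimpleGraph V₂} {m n k : ℕ}
    (hn : 1 ≤ n) (hG : G.CliqueFree n) (eH : Ext n k H) (hm : m ≤ k)
    {xs : Fin m → V₁} {ys : Fin m → V₂} (h : PIso G H xs ys) (a : V₁) :
    ∃ b, PIso G H (Fin.snoc xs a : Fin (m + 1) → V₁) (Fin.snoc ys b : Fin (m + 1) → V₂) := by
  classical
  -- it is enough to find `b` with the right relations to the `ys i`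
  suffices hb : ∃ b, ∀ i, (a = xs i ↔ b = ys i) ∧ (G.Adj a (xs i) ↔ H.Adj b (ys i)) by
    obtain ⟨b, hb⟩ := hb
    refine ⟨b, ?_, ?_⟩
    · intro i j
      refine Fin.lastCases ?_ (fun i => ?_) i <;> refine Fin.lastCases ?_ (fun j => ?_) j
      · simp
      · simp only [Fin.snoc_last, Fin.snoc_castSucc]
        exact (hb j).1
      · simp only [Fin.snoc_last, Fin.snoc_castSucc]
        rw [eq_comm, (hb i).1, eq_comm]
      · simp only [Fin.snoc_castSucc]
        exact h.1 i j
    · intro i j
      refine Fin.lastCases ?_ (fun i => ?_) i <;> refine Fin.lastCases ?_ (fun j => ?_) j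
      · simp
      · simp only [Fin.snoc_last, Fin.snoc_castSucc]
        exact (hb j).2
      · simp only [Fin.snoc_last, Fin.snoc_castSucc]
        rw [G.adj_comm, (hb i).2, H.adj_comm]
      · simp only [Fin.snoc_castSucc]
        exact h.2 i j
  by_cases ha : ∃ i, a = xs i
  · obtain ⟨i, rfl⟩ := ha
    exact ⟨ys i, fun j => ⟨h.1 i j, h.2 i j⟩⟩
  · push Not at ha
    set I : Finset (Fin m) := Finset.univ.filter (fun i => G.Adj a (xs i)) with hI
    set J : Finset (Fin m) := Finset.univ.filter (fun i => ¬ G.Adj a (xs i)) with hJ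
    have hcard : I.card + J.card = m := by
      rw [hI, hJ, Finset.card_filter_add_card_filter_not, Finset.card_univ, Fintype.card_fin]
    have hdj : Disjoint (I.image ys) (J.image ys) := by
      rw [Finset.disjoint_left]
      intro y hy hy'
      obtain ⟨i, hi, rfl⟩ := Finset.mem_image.1 hy
      obtain ⟨j, hj, hij⟩ := Finset.mem_image.1 hy'
      have hxx : xs j = xs i := (h.1 j i).2 hij
      simp only [hI, hJ, Finset.mem_filter, Finset.mem_univ, true_and] at hi hj
      rw [hxx] at hj
      exact hj hi
    have hcd : (I.image ys).card + (J.image ys).card ≤ k := by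
      refine (Nat.add_le_add Finset.card_image_le Finset.card_image_le).trans ?_
      omega
    have hnc : ∀ s ⊆ I.image ys, ¬ H.IsNClique (n - 1) s := by
      intro s hs hcl
      have hch : ∀ y : s, ∃ i, G.Adj a (xs i) ∧ ys i = y.1 := by
        intro y
        obtain ⟨i, hi, hy⟩ := Finset.mem_image.1 (hs y.2)
        refine ⟨i, ?_, hy⟩
        simpa [hI] using hi
      choose f hf1 hf2 using hch
      have hadj : ∀ y y' : s, y ≠ y' → G.Adj (xs (f y)) (xs (f y')) := by
        intro y y' hyy
        rw [h.2, hf2, hf2]
        exact hcl.isClique y.2 y'.2 (fun h => hyy (Subtype.ext h))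
      have hinj : Function.Injective (fun y : s => xs (f y)) := by
        intro y y' hyy
        by_contra hne
        have hcontra := hadj y y' hne
        simp only at hyy
        rw [hyy] at hcontra
        exact G.loopless.irrefl _ hcontra
      have hnot : a ∉ Finset.univ.image (fun y : s => xs (f y)) := by
        intro hmem
        obtain ⟨y, -, hy⟩ := Finset.mem_image.1 hmem
        exact ha (f y) hy.symm
      refine hG (insert a (Finset.univ.image (fun y : s => xs (f y)))) ⟨?_, ?_⟩
      · rw [Finset.coe_insert, SimpleGraph.isClique_insert]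
        refine ⟨?_, ?_⟩
        · intro x hx y hy hxy
          rw [Finset.mem_coe, Finset.mem_image] at hx hy
          obtain ⟨q, -, rfl⟩ := hx
          obtain ⟨q', -, rfl⟩ := hy
          exact hadj q q' (fun h => hxy (by rw [h]))
        · intro x hx _
          rw [Finset.mem_coe, Finset.mem_image] at hx
          obtain ⟨q, -, rfl⟩ := hx
          exact hf1 q
      · rw [Finset.card_insert_of_notMem hnot, Finset.card_image_of_injective _ hinj,
          Finset.card_univ, Fintype.card_coe, hcl.card_eq]
        omega
    obtain ⟨b, hbU, hbV, hb1, hb2⟩ := eH (I.image ys) (J.image ys) hdj hcd hnc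
    refine ⟨b, fun i => ⟨?_, ?_⟩⟩
    · constructor
      · intro hi
        exact absurd hi (ha i)
      · rintro rfl
        exfalso
        by_cases hi : G.Adj a (xs i)
        · exact hbU (Finset.mem_image_of_mem _ (by simp [hI, hi]))
        · exact hbV (Finset.mem_image_of_mem _ (by simp [hJ, hi]))
    · constructor
      · intro hi
        exact hb1 _ (Finset.mem_image_of_mem _ (by simp [hI, hi]))
      · intro hi
        by_contra hni
        exact hb2 _ (Finset.mem_image_of_mem _ (by simp [hJ, hni])) hi

/-- terms of the language of graphs are variables -/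
theorem term_eq {m : ℕ} (t : Language.graph.Term (Empty ⊕ Fin m)) :
    ∃ i, t = Language.Term.var (Sum.inr i) := by
  rcases t with ⟨x | i⟩ | ⟨f, ts⟩
  · exact x.elim
  · exact ⟨i, rfl⟩
  · exact Empty.elim f

/-- graphs omitting `K_n` with the extension axioms satisfy the same formulas -/
theorem realize_iff {V₁ V₂ : Type} {G : SimpleGraph V₁} {H : SimpleGraph V₂} {n k : ℕ}
    (hn : 1 ≤ n) (hG : G.CliqueFree n) (hH : H.CliqueFree n) (eG : Ext n k G) (eH : Ext n k H) :
    ∀ {m : ℕ} (φ : Language.graph.BoundedFormula Empty m), m + qd φ ≤ k + 1 →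
      ∀ (xs : Fin m → V₁) (ys : Fin m → V₂), PIso G H xs ys →
        ((@Language.BoundedFormula.Realize Language.graph V₁ G.structure _ _ φ default xs) ↔
          (@Language.BoundedFormula.Realize Language.graph V₂ H.structure _ _ φ default ys)) := by
  intro m φ
  induction φ with
  | falsum => intro _ xs ys _; exact Iff.rfl
  | @equal m t₁ t₂ =>
    intro _ xs ys h
    obtain ⟨i, rfl⟩ := term_eq t₁
    obtain ⟨j, rfl⟩ := term_eq t₂
    exact h.1 i j
  | @rel m l R ts =>
    intro _ xs ys h
    cases R
    obtain ⟨i, hi⟩ := term_eq (ts 0)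
    obtain ⟨j, hj⟩ := term_eq (ts 1)
    show G.Adj (@Language.Term.realize _ _ G.structure _ (Sum.elim default xs) (ts 0))
      (@Language.Term.realize _ _ G.structure _ (Sum.elim default xs) (ts 1)) ↔
      H.Adj (@Language.Term.realize _ _ H.structure _ (Sum.elim default ys) (ts 0))
      (@Language.Term.realize _ _ H.structure _ (Sum.elim default ys) (ts 1))
    rw [hi, hj]
    exact h.2 i j
  | @imp m f g ihf ihg =>
    intro hq xs ys h
    have h1 : m + qd f ≤ k + 1 := by
      have : qd f ≤ qd (f.imp g) := le_max_left _ _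
      omega
    have h2 : m + qd g ≤ k + 1 := by
      have : qd g ≤ qd (f.imp g) := le_max_right _ _
      omega
    have e1 := ihf h1 xs ys h
    have e2 := ihg h2 xs ys h
    simp only [Language.BoundedFormula.realize_imp]
    rw [e1, e2]
  | @all m f ih =>
    intro hq xs ys h
    have hq' : m + 1 + qd f ≤ k + 1 := by
      have : qd f.all = qd f + 1 := rfl
      omega
    have hmk : m ≤ k := by omega
    simp only [Language.BoundedFormula.realize_all]
    constructor
    · intro hall b
      obtain ⟨a, hab⟩ := h.symm.step hn hH eG hmk b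
      exact (ih hq' _ _ hab.symm).1 (hall a)
    · intro hall a
      obtain ⟨b, hab⟩ := h.step hn hG eH hmk a
      exact (ih hq' _ _ hab).2 (hall b)

/-- Every graph that omits `K_n` and satisfies all extension axioms is pseudofinite. -/
theorem pseudofinite_of_ext {n : ℕ} (hn : 2 < n) {V : Type} (G : SimpleGraph V)
    (hG : G.CliqueFree n) (hE : ∀ k, Ext n k G) :
    @Pseudofinite Language.graph V G.structure := by
  intro φ hφ
  obtain ⟨W, hW, H, hH, eH⟩ := finite_extension n (qd φ) (by omega)
  refine ⟨W, H.structure, hW, ?_, ?_⟩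
  · obtain ⟨w, -⟩ := eH ∅ ∅ (Finset.disjoint_empty_left _) (by simp) (by
      intro s hs hcl
      have : s = ∅ := Finset.subset_empty.1 hs
      subst this
      have := hcl.card_eq
      simp at this
      omega)
    exact ⟨w⟩
  · exact (realize_iff (by omega) hG hH (hE (qd φ)) eH φ (by omega) _ _
      ⟨fun i => i.elim0, fun i => i.elim0⟩).1 hφ

/-- The Henson graph satisfies all extension axioms. -/
theorem IsHenson.ext {n : ℕ} {V : Type} {G : SimpleGraph V} (h : IsHenson n G)
    (k : ℕ) : Ext n k G := by
  classical
  intro U V' hdis _ hU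
  -- the graph on `U ∪ V'` with one more vertex
  let S : Type := {x // x ∈ U ∪ V'}
  let H : SimpleGraph (Option S) :=
    { Adj := fun x y => match x, y with
        | none, none => False
        | none, some y => y.1 ∈ U
        | some x, none => x.1 ∈ U
        | some x, some y => G.Adj x.1 y.1
      symm := ⟨by
        rintro (_ | x) (_ | y) h
        · exact h
        · exact h
        · exact h
        · exact G.symm.symm _ _ h⟩
      loopless := ⟨by
        rintro (_ | x) h
        · exact h
        · exact G.loopless.irrefl _ h⟩ }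
  have hH : H.CliqueFree n := by
    intro s hs
    by_cases hnone : none ∈ s
    · -- the rest is a clique in `U`
      have hcl : H.IsClique (s.erase none) := by
        intro x hx y hy hxy
        rw [Finset.mem_coe, Finset.mem_erase] at hx hy
        exact hs.isClique hx.2 hy.2 hxy
      have hU1 : ∀ x ∈ s.erase none, ∃ y : S, x = some y ∧ y.1 ∈ U := by
        intro x hx
        rw [Finset.mem_erase] at hx
        rcases x with _ | y
        · exact absurd rfl hx.1
        · exact ⟨y, rfl, hs.isClique hx.2 hnone (by simp)⟩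
      have hch : ∀ x : {x // x ∈ s.erase none}, ∃ y : S, x.1 = some y ∧ y.1 ∈ U :=
        fun x => hU1 x.1 x.2
      choose f hf1 hf2 using hch
      have hadj : ∀ x y, x ≠ y → G.Adj (f x).1 (f y).1 := by
        intro x y hxy
        have := hcl x.2 y.2 (fun h => hxy (Subtype.ext h))
        rw [hf1 x, hf1 y] at this
        exact this
      have hinj : Function.Injective (fun x => (f x).1) := by
        intro x y hxy
        by_contra hne
        have := hadj x y hne
        simp only at hxy
        rw [hxy] at this
        exact G.loopless.irrefl _ this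
      refine hU (Finset.univ.image (fun x => (f x).1)) ?_ ⟨?_, ?_⟩
      · intro x hx
        obtain ⟨q, -, rfl⟩ := Finset.mem_image.1 hx
        exact hf2 q
      · intro x hx y hy hxy
        rw [Finset.mem_coe, Finset.mem_image] at hx hy
        obtain ⟨q, -, rfl⟩ := hx
        obtain ⟨q', -, rfl⟩ := hy
        exact hadj q q' (fun h => hxy (by rw [h]))
      · rw [Finset.card_image_of_injective _ hinj, Finset.card_univ, Fintype.card_coe,
          Finset.card_erase_of_mem hnone, hs.card_eq]
    · have hch : ∀ x : {x // x ∈ s}, ∃ y : S, x.1 = some y := by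
        rintro ⟨x, hx⟩
        rcases x with _ | y
        · exact absurd hx hnone
        · exact ⟨y, rfl⟩
      choose f hf1 using hch
      have hadj : ∀ x y, x ≠ y → G.Adj (f x).1 (f y).1 := by
        intro x y hxy
        have := hs.isClique x.2 y.2 (fun h => hxy (Subtype.ext h))
        rw [hf1 x, hf1 y] at this
        exact this
      have hinj : Function.Injective (fun x => (f x).1) := by
        intro x y hxy
        by_contra hne
        have := hadj x y hne
        simp only at hxy
        rw [hxy] at this
        exact G.loopless.irrefl _ this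
      refine h.cliqueFree (Finset.univ.image (fun x => (f x).1)) ⟨?_, ?_⟩
      · intro x hx y hy hxy
        rw [Finset.mem_coe, Finset.mem_image] at hx hy
        obtain ⟨q, -, rfl⟩ := hx
        obtain ⟨q', -, rfl⟩ := hy
        exact hadj q q' (fun h => hxy (by rw [h]))
      · rw [Finset.card_image_of_injective _ hinj, Finset.card_univ, Fintype.card_coe, hs.card_eq]
  obtain ⟨e⟩ := h.universal (Option S) H inferInstance hH
  -- move the copy of `U ∪ V'` back to `U ∪ V'`
  let T : Finset V := Finset.univ.image (fun x : S => e (some x))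
  have hT : ∀ x : S, e (some x) ∈ T := fun x => Finset.mem_image_of_mem _ (Finset.mem_univ x)
  have hT' : ∀ t ∈ T, ∃ x : S, e (some x) = t := by
    intro t ht
    obtain ⟨x, -, hx⟩ := Finset.mem_image.1 ht
    exact ⟨x, hx⟩
  let F : V → V := fun t => if ht : ∃ x : S, e (some x) = t then ht.choose.1 else t
  have hF : ∀ x : S, F (e (some x)) = x.1 := by
    intro x
    have hex : ∃ y : S, e (some y) = e (some x) := ⟨x, rfl⟩
    have : F (e (some x)) = hex.choose.1 := dif_pos hex
    rw [this]
    have h1 := hex.choose_spec
    have h2 := e.injective h1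
    rw [Option.some.injEq] at h2
    rw [h2]
  obtain ⟨σ, hσ⟩ := h.homogeneous T F (by
    intro a ha b hb hab
    obtain ⟨x, rfl⟩ := hT' a ha
    obtain ⟨y, rfl⟩ := hT' b hb
    rw [hF, hF] at hab
    rw [Subtype.ext hab]) (by
    intro a ha b hb
    obtain ⟨x, rfl⟩ := hT' a ha
    obtain ⟨y, rfl⟩ := hT' b hb
    rw [hF, hF, e.map_adj_iff])
  have hσ' : ∀ x : S, σ (e (some x)) = x.1 := fun x => by rw [hσ _ (hT x), hF]
  refine ⟨σ (e none), ?_, ?_, ?_, ?_⟩
  · intro hmem
    have := hσ' ⟨σ (e none), Finset.mem_union_left _ hmem⟩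
    simp at this
  · intro hmem
    have := hσ' ⟨σ (e none), Finset.mem_union_right _ hmem⟩
    simp at this
  · intro u hu
    have h1 : σ (e (some ⟨u, Finset.mem_union_left _ hu⟩)) = u :=
      hσ' ⟨u, Finset.mem_union_left _ hu⟩
    rw [← h1, σ.map_adj_iff, e.map_adj_iff]
    exact hu
  · intro v hv hadj
    have h1 : σ (e (some ⟨v, Finset.mem_union_right _ hv⟩)) = v :=
      hσ' ⟨v, Finset.mem_union_right _ hv⟩
    rw [← h1, σ.map_adj_iff, e.map_adj_iff] at hadj
    exact Finset.disjoint_left.1 hdis hadj hv

end Pool.Agent.PSF
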